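import Pool.Agent.Helper87.BP.Fail

set_option autoImplicit false

namespace Pool.Agent.Results.MP_7debfd_pr.DisconnectedFails

open Pool.Agent.Helper87.BP

/-- Above the Kesten-Stigum bound with `b = 0`: for every `ε > 0` the probability that randomly
initialised belief propagation reaches absolute overlap at least `ε` stays below `1 - c`, for all
large `n`, uniformly over every number of rounds `t`. -/
theorem result :
    ∀ a : ℝ, 0 ≤ a → 2 * (a + 0) < (a - 0) ^ 2 → ∀ ε : ℝ, 0 < ε →
      ∃ c : ℝ, 0 < c ∧ ∃ N : ℕ, ∀ n : ℕ, N ≤ n → ∀ t : ℕ, succProb n t a 0 ε ≤ 1 - c := by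
  intro a ha _ ε hε
  exact bp_fails ha hε

end Pool.Agent.Results.MP_7debfd_pr.DisconnectedFails
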