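import Pool.Agent.Helper87.BP.Barrier

set_option autoImplicit false

namespace Pool.Agent.Results.MP_7debfd_pr.HalfBarrier

open Pool.Agent.Helper87.BP

/-- For all `a, b ≥ 0`, all `n ≥ 1`, every number of rounds `t` and every `δ > 0`, randomly
initialised belief propagation has absolute overlap at least `1/2 + δ` with probability at most
`1/2 + 1/(8 n δ^2)`. -/
theorem result :
    ∀ a b : ℝ, 0 ≤ a → 0 ≤ b → ∀ δ : ℝ, 0 < δ → ∀ n : ℕ, 0 < n → ∀ t : ℕ,
      succProb n t a b (1 / 2 + δ) ≤ 1 / 2 + 1 / (8 * n * δ ^ 2) := by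
  intro a b ha hb δ hδ n hn t
  exact barrier ha hb hn t hδ

end Pool.Agent.Results.MP_7debfd_pr.HalfBarrier
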