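import Pool.Agent.Helper60.BP.Top

set_option autoImplicit false

namespace Pool.Agent.Results.MP_7debfd_pr.RandomInitFails

open Pool.Agent.Helper87.BP

/-- Belief propagation from random initialisation fails, for every number of rounds, in every block
model with `a > b > 0` above the Kesten-Stigum bound whose average degree is large compared with
the signal-to-noise ratio: the probability that the absolute overlap is at least `ε` stays below
`1 - c` for all large `n`, uniformly over every number of rounds `t`. -/
theorem result :
    ∀ K : ℝ, ∃ D : ℝ, ∀ a b : ℝ, 0 < b → b < a → D ≤ a + b →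
      2 * (a + b) < (a - b) ^ 2 → (a - b) ^ 2 ≤ K * (a + b) →
      ∀ ε : ℝ, 0 < ε → ∃ c : ℝ, 0 < c ∧ ∃ N : ℕ, ∀ n : ℕ, N ≤ n → ∀ t : ℕ,
        succProb n t a b ε ≤ 1 - c :=
  Pool.Agent.Helper60.BP.bp_random_fails

end Pool.Agent.Results.MP_7debfd_pr.RandomInitFails
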